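import Pool.Agent.V5helper73.SZ.StmC

set_option autoImplicit false
open Complex Metric Set Filter Topology MeasureTheory

namespace V5helper28.SZ.F2
open V5helper73.SZ

lemma geo_le (θ : ℝ) (h0 : 0 < θ) (h1 : θ < 1) (m : ℕ) :
    ∑ k ∈ Finset.range (m + 1), θ ^ (m - k) ≤ (1 - θ)⁻¹ := by
  rw [Finset.sum_flip (fun n => θ ^ n), ← tsum_geometric_of_lt_one h0.le h1]
  exact (summable_geometric_of_lt_one h0.le h1).sum_le_tsum _ (fun i _ => pow_nonneg h0.le i)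

lemma leaves (h1 : S_TREE) (h2 : S_ATT) (h3 : S_SUMX) (h4 : S_CL2) : ∃ K : ℝ, 0 ≤ K ∧
    ∀ f : ℂ → ℂ, InS f → ∀ m : ℕ,
      ∑ j ∈ Finset.range (2 ^ m), dd f (pt m j) * ‖f (pt m j)‖ ^ (-(4 / 5) : ℝ) ≤
        K * (2 : ℝ) ^ ((2 / 5 : ℝ) * m) := by
  obtain ⟨C, hC⟩ : ∃ C : ℝ, C = 2000000 := ⟨_, rfl⟩
  have hC1 : 1 ≤ C := by rw [hC]; norm_num
  have hC0 : 0 < C := by linarith
  have hδ : (0 : ℝ) < 1 - 4 / 5 := by norm_num
  have h2δ : (2 : ℝ) ^ (-((1 : ℝ) - 4 / 5)) < 1 := Real.rpow_lt_one_of_one_lt_of_neg (by norm_num) (by norm_num)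
  set R : ℝ := C / (1 - 2 ^ (-((1 : ℝ) - 4 / 5))) with hR
  have hR0 : 0 < R := div_pos hC0 (by linarith)
  obtain ⟨K₁, η, hK₁, hη, hη', hcl⟩ := h4 R hR0
  obtain ⟨K₂, hsum⟩ := h3 C 1 (4 / 5) hC1 (by norm_num) (by norm_num) (by norm_num)
  set θ : ℝ := (2 : ℝ) ^ (-η) with hθ
  have hθ0 : 0 < θ := Real.rpow_pos_of_pos (by norm_num) _
  have hθ1 : θ < 1 := Real.rpow_lt_one_of_one_lt_of_neg (by norm_num) (by linarith)
  have hθ2 : 0 < (1 - θ)⁻¹ := inv_pos.2 (by linarith)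
  refine ⟨K₁ * |K₂| * (1 - θ)⁻¹, by positivity, ?_⟩
  intro f hf m
  have T := h1 f hf
  rw [← hC] at T
  have hdpos : ∀ k i, 0 < dd f (pt k i) := fun k i => T.pos k i
  have hatt : ∀ j : ℕ, ∃ k : ℕ, j < 2 ^ m → k ≤ m ∧
      adm (1 - 4 / 5) (fun k i => dd f (pt k i)) k (j / 2 ^ (m - k)) ∧
      ‖f (pt m j) - f (pt k (j / 2 ^ (m - k)))‖ ≤ R * dd f (pt k (j / 2 ^ (m - k))) := by
    intro j
    by_cases hj : j < 2 ^ m
    · obtain ⟨k, hk, ha, hb⟩ := h2 C (1 - 4 / 5) hC1 hδ _ _ T m j hj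
      exact ⟨k, fun _ => ⟨hk, ha, hb⟩⟩
    · exact ⟨0, fun h => absurd h hj⟩
  choose κ hκ using hatt
  have hmaps : ∀ j ∈ Finset.range (2 ^ m), κ j ∈ Finset.range (m + 1) := by
    intro j hj
    rw [Finset.mem_range] at hj ⊢
    have := (hκ j hj).1
    omega
  rw [← Finset.sum_fiberwise_of_maps_to hmaps]
  have hlev : ∀ k ∈ Finset.range (m + 1),
      ∑ j ∈ (Finset.range (2 ^ m)).filter (fun j => κ j = k), dd f (pt m j) * ‖f (pt m j)‖ ^ (-(4 / 5) : ℝ) ≤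
        K₁ * |K₂| * ((2 : ℝ) ^ ((2 / 5 : ℝ) * m) * θ ^ (m - k)) := by
    intro k hk
    have hkm : k ≤ m := by
      rw [Finset.mem_range] at hk; omega
    set S := (Finset.range (2 ^ m)).filter (fun j => κ j = k) with hS
    have hmaps2 : ∀ j ∈ S, (fun j => j / 2 ^ (m - k)) j ∈ S.image (fun j => j / 2 ^ (m - k)) :=
      fun j hj => Finset.mem_image_of_mem _ hj
    have hSj : ∀ j ∈ S, j < 2 ^ m ∧ j / 2 ^ (m - k) < 2 ^ k ∧
        adm (1 - 4 / 5) (fun k i => dd f (pt k i)) k (j / 2 ^ (m - k)) ∧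
        ‖f (pt m j) - f (pt k (j / 2 ^ (m - k)))‖ ≤ R * dd f (pt k (j / 2 ^ (m - k))) := by
      intro j hj
      rw [hS, Finset.mem_filter, Finset.mem_range] at hj
      obtain ⟨hj1, hj2⟩ := hj
      have := hκ j hj1
      rw [hj2] at this
      refine ⟨hj1, ?_, this.2.1, this.2.2⟩
      apply Nat.div_lt_of_lt_mul
      rw [← pow_add]
      have h6 : m - k + k = m := by omega
      rw [h6]; exact hj1
    rw [← Finset.sum_fiberwise_of_maps_to hmaps2]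
    have hin : ∀ i ∈ S.image (fun j => j / 2 ^ (m - k)),
        ∑ j ∈ S.filter (fun j => j / 2 ^ (m - k) = i), dd f (pt m j) * ‖f (pt m j)‖ ^ (-(4 / 5) : ℝ) ≤
          K₁ * (dd f (pt k i) * (‖f (pt k i)‖ + dd f (pt k i)) ^ (-(4 / 5) : ℝ)) *
            2 ^ ((2 / 5 - η) * ((m : ℝ) - k)) := by
      intro i hi
      obtain ⟨j₀, hj₀, hj₀'⟩ := Finset.mem_image.1 hi
      apply hcl f hf k m i hkm (by rw [← hj₀']; exact (hSj j₀ hj₀).2.1)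
      intro j hj
      rw [Finset.mem_filter] at hj
      obtain ⟨h6, h7, h8, h9⟩ := hSj j hj.1
      rw [hj.2] at h9
      exact ⟨h6, hj.2, h9⟩
    have hsx := hsum _ _ T k (S.image (fun j => j / 2 ^ (m - k))) (by
      intro i hi
      obtain ⟨j₀, hj₀, hj₀'⟩ := Finset.mem_image.1 hi
      obtain ⟨h6, h7, h8, h9⟩ := hSj j₀ hj₀
      rw [← hj₀']
      exact ⟨h7, h8⟩)
    simp only [Real.rpow_one] at hsx
    have hE0 : 0 ≤ (2 : ℝ) ^ ((2 / 5 - η) * ((m : ℝ) - k)) := Real.rpow_nonneg (by norm_num) _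
    have h40 : 0 ≤ (4 : ℝ) ^ ((k : ℝ) * (1 - 4 / 5)) := Real.rpow_nonneg (by norm_num) _
    have hexp : (4 : ℝ) ^ ((k : ℝ) * (1 - 4 / 5)) * (2 : ℝ) ^ ((2 / 5 - η) * ((m : ℝ) - k)) =
        (2 : ℝ) ^ ((2 / 5 : ℝ) * m) * θ ^ (m - k) := by
      rw [hθ, ← Real.rpow_natCast, ← Real.rpow_mul (by norm_num : (0:ℝ) ≤ 2), Nat.cast_sub hkm]
      have h44 : (4 : ℝ) = (2 : ℝ) ^ (2 : ℝ) := by norm_num
      rw [h44, ← Real.rpow_mul (by norm_num : (0:ℝ) ≤ 2), ← Real.rpow_add (by norm_num : (0:ℝ) < 2),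
        ← Real.rpow_add (by norm_num : (0:ℝ) < 2)]
      congr 1
      ring
    calc _ ≤ ∑ i ∈ S.image (fun j => j / 2 ^ (m - k)),
          K₁ * (dd f (pt k i) * (‖f (pt k i)‖ + dd f (pt k i)) ^ (-(4 / 5) : ℝ)) *
            2 ^ ((2 / 5 - η) * ((m : ℝ) - k)) := Finset.sum_le_sum hin
      _ = K₁ * (∑ i ∈ S.image (fun j => j / 2 ^ (m - k)),
          (dd f (pt k i) * (‖f (pt k i)‖ + dd f (pt k i)) ^ (-(4 / 5) : ℝ))) *
            2 ^ ((2 / 5 - η) * ((m : ℝ) - k)) := by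
          rw [Finset.mul_sum, Finset.sum_mul]
      _ ≤ K₁ * (|K₂| * (4 : ℝ) ^ ((k : ℝ) * (1 - 4 / 5))) * 2 ^ ((2 / 5 - η) * ((m : ℝ) - k)) := by
          apply mul_le_mul_of_nonneg_right _ hE0
          apply mul_le_mul_of_nonneg_left _ hK₁
          exact hsx.trans (mul_le_mul_of_nonneg_right (le_abs_self _) h40)
      _ = K₁ * |K₂| * ((4 : ℝ) ^ ((k : ℝ) * (1 - 4 / 5)) * 2 ^ ((2 / 5 - η) * ((m : ℝ) - k))) := by ring
      _ = _ := by rw [hexp]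
  calc _ ≤ ∑ k ∈ Finset.range (m + 1), K₁ * |K₂| * ((2 : ℝ) ^ ((2 / 5 : ℝ) * m) * θ ^ (m - k)) :=
        Finset.sum_le_sum hlev
    _ = K₁ * |K₂| * (2 : ℝ) ^ ((2 / 5 : ℝ) * m) * ∑ k ∈ Finset.range (m + 1), θ ^ (m - k) := by
        rw [Finset.mul_sum]
        apply Finset.sum_congr rfl
        intro k _
        ring
    _ ≤ K₁ * |K₂| * (2 : ℝ) ^ ((2 / 5 : ℝ) * m) * (1 - θ)⁻¹ := by
        apply mul_le_mul_of_nonneg_left (geo_le θ hθ0 hθ1 m)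
        positivity
    _ = _ := by ring

lemma norm_pt (k i : ℕ) : ‖pt k i‖ = 1 - (1 / 2 : ℝ) ^ k := by
  rw [pt, norm_mul, Complex.norm_exp_ofReal_mul_I, mul_one, Complex.norm_real, Real.norm_eq_abs, abs_of_nonneg]
  have : (1 / 2 : ℝ) ^ k ≤ 1 := pow_le_one₀ (by norm_num) (by norm_num)
  linarith

theorem t_FIN2 (h1 : S_TREE) (h2 : S_ATT) (h3 : S_SUMX) (h4 : S_CL2) (h5 : S_MEAN) : S_FIN2 := by
  obtain ⟨K, hK, hle⟩ := leaves h1 h2 h3 h4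
  obtain ⟨K₃, hK₃, hmean⟩ := h5 1 (4 / 5) (by norm_num) (by norm_num)
  refine ⟨K₃ * K * 2, by positivity, ?_⟩
  intro f hf r hr hr1
  obtain ⟨n, hn1, hn2⟩ := exists_nat_pow_near_of_lt_one (x := 1 - r) (y := (1 / 2 : ℝ)) (by linarith)
    (by linarith) (by norm_num) (by norm_num)
  have hm1 : 1 - 2 * (1 / 2 : ℝ) ^ (n + 1) ≤ r := by
    rw [pow_succ]; linarith
  have hm2 : r ≤ 1 - (1 / 2 : ℝ) ^ (n + 1) := by linarith
  have h6 := hmean f hf (n + 1) r hr hm1 hm2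
  simp only [Real.rpow_one] at h6
  have h7 := hle f hf (n + 1)
  have h8 : (1 / 2 : ℝ) ^ (n + 1) * ∑ j ∈ Finset.range (2 ^ (n + 1)),
      ‖deriv f (pt (n + 1) j)‖ * ‖f (pt (n + 1) j)‖ ^ (-(4 / 5) : ℝ) ≤
      ∑ j ∈ Finset.range (2 ^ (n + 1)), dd f (pt (n + 1) j) * ‖f (pt (n + 1) j)‖ ^ (-(4 / 5) : ℝ) := by
    rw [Finset.mul_sum]
    apply Finset.sum_le_sum
    intro j _
    have h9 : (1 / 2 : ℝ) ^ (n + 1) * ‖deriv f (pt (n + 1) j)‖ ≤ dd f (pt (n + 1) j) := by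
      rw [dd, norm_pt, mul_comm]
      apply mul_le_mul_of_nonneg_left _ (norm_nonneg _)
      have h10 : (1 / 2 : ℝ) ^ (n + 1) ≤ 1 := pow_le_one₀ (by norm_num) (by norm_num)
      have h11 : 0 < (1 / 2 : ℝ) ^ (n + 1) := by positivity
      nlinarith
    have h10 : 0 ≤ ‖f (pt (n + 1) j)‖ ^ (-(4 / 5) : ℝ) := Real.rpow_nonneg (norm_nonneg _) _
    have h11 := mul_le_mul_of_nonneg_right h9 h10
    linarith
  have h12 : (2 : ℝ) ^ ((2 / 5 : ℝ) * ((n + 1 : ℕ) : ℝ)) ≤ 2 * (1 - r) ^ (-(2 / 5) : ℝ) := by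
    have h13 : 1 - r ≤ (2 : ℝ) ^ (1 - ((n + 1 : ℕ) : ℝ)) := by
      rw [Real.rpow_sub (by norm_num), Real.rpow_one, Real.rpow_natCast]
      have h14 : (2 : ℝ) / 2 ^ (n + 1) = 2 * (1 / 2 : ℝ) ^ (n + 1) := by
        rw [one_div, inv_pow]; rfl
      rw [h14, pow_succ]
      linarith
    have h15 : ((2 : ℝ) ^ (1 - ((n + 1 : ℕ) : ℝ))) ^ (-(2 / 5) : ℝ) ≤ (1 - r) ^ (-(2 / 5) : ℝ) :=
      Real.rpow_le_rpow_of_nonpos (by linarith) h13 (by norm_num)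
    rw [← Real.rpow_mul (by norm_num)] at h15
    have h16 : (2 : ℝ) ^ ((2 / 5 : ℝ) * ((n + 1 : ℕ) : ℝ)) =
        (2 : ℝ) ^ (2 / 5 : ℝ) * (2 : ℝ) ^ ((1 - ((n + 1 : ℕ) : ℝ)) * (-(2 / 5) : ℝ)) := by
      rw [← Real.rpow_add (by norm_num)]
      congr 1
      ring
    have h17 : (2 : ℝ) ^ (2 / 5 : ℝ) ≤ 2 := by
      calc (2 : ℝ) ^ (2 / 5 : ℝ) ≤ (2 : ℝ) ^ (1 : ℝ) := Real.rpow_le_rpow_of_exponent_le (by norm_num) (by norm_num)
        _ = 2 := Real.rpow_one 2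
    rw [h16]
    exact mul_le_mul h17 h15 (Real.rpow_nonneg (by norm_num) _) (by norm_num)
  calc _ ≤ _ := h6
    _ = K₃ * ((1 / 2 : ℝ) ^ (n + 1) * ∑ j ∈ Finset.range (2 ^ (n + 1)),
      ‖deriv f (pt (n + 1) j)‖ * ‖f (pt (n + 1) j)‖ ^ (-(4 / 5) : ℝ)) := by ring
    _ ≤ K₃ * (K * (2 * (1 - r) ^ (-(2 / 5) : ℝ))) := by
        apply mul_le_mul_of_nonneg_left _ hK₃
        exact h8.trans (h7.trans (mul_le_mul_of_nonneg_left h12 hK))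
    _ = K₃ * K * 2 * (1 - r) ^ (-(2 / 5) : ℝ) := by ring

end V5helper28.SZ.F2
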