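import Pool.Agent.V5helper73.SZ.StmC

set_option autoImplicit false
open Complex Metric Set Filter Topology MeasureTheory

namespace V5helper28.SZ
open V5helper73.SZ

lemma neg_rpow_le {u v L : ℝ} (hu : 0 < u) (hL : 1 ≤ L) (h : u ≤ L * v) :
    v ^ (-(4 / 5) : ℝ) ≤ L * u ^ (-(4 / 5) : ℝ) := by
  have hL0 : 0 < L := by linarith
  have hv : 0 < v := by
    by_contra hv
    push Not at hv
    nlinarith
  have h1 : u / L ≤ v := by rw [div_le_iff₀ hL0]; linarith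
  have h2 : v ^ (-(4 / 5) : ℝ) ≤ (u / L) ^ (-(4 / 5) : ℝ) :=
    Real.rpow_le_rpow_of_nonpos (by positivity) h1 (by norm_num)
  have h3 : (u / L) ^ (-(4 / 5) : ℝ) = u ^ (-(4 / 5) : ℝ) * L ^ (4 / 5 : ℝ) := by
    rw [Real.div_rpow hu.le hL0.le, Real.rpow_neg hL0.le, div_inv_eq_mul]
  have h4 : L ^ (4 / 5 : ℝ) ≤ L := by
    calc L ^ (4 / 5 : ℝ) ≤ L ^ (1 : ℝ) := Real.rpow_le_rpow_of_exponent_le hL (by norm_num)
      _ = L := Real.rpow_one L
  have h5 : 0 ≤ u ^ (-(4 / 5) : ℝ) := Real.rpow_nonneg hu.le _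
  nlinarith

lemma geo_sum (θ : ℝ) (h0 : 0 < θ) (h1 : θ < 1) (A : Finset ℤ) (g : ℤ → ℕ) (hg : Set.InjOn g A) :
    ∑ a ∈ A, θ ^ (g a) ≤ (1 - θ)⁻¹ := by
  rw [← Finset.sum_image (f := fun n : ℕ => θ ^ n) hg, ← tsum_geometric_of_lt_one h0.le h1]
  exact (summable_geometric_of_lt_one h0.le h1).sum_le_tsum _ (fun i _ => pow_nonneg h0.le i)

/-- the integral part of the binary logarithm -/
noncomputable def lg (y : ℝ) : ℤ := ⌊Real.logb 2 y⌋

lemma lg_le {y : ℝ} (hy : 0 < y) : (2 : ℝ) ^ ((lg y : ℤ) : ℝ) ≤ y := by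
  calc (2 : ℝ) ^ ((lg y : ℤ) : ℝ) ≤ (2 : ℝ) ^ Real.logb 2 y :=
        Real.rpow_le_rpow_of_exponent_le (by norm_num) (Int.floor_le _)
    _ = y := Real.rpow_logb (by norm_num) (by norm_num) hy

lemma lt_lg {y : ℝ} (hy : 0 < y) : y ≤ 2 * (2 : ℝ) ^ ((lg y : ℤ) : ℝ) := by
  calc y = (2 : ℝ) ^ Real.logb 2 y := (Real.rpow_logb (by norm_num) (by norm_num) hy).symm
    _ ≤ (2 : ℝ) ^ (((lg y : ℤ) : ℝ) + 1) :=
        Real.rpow_le_rpow_of_exponent_le (by norm_num) (Int.lt_floor_add_one _).le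
    _ = 2 * (2 : ℝ) ^ ((lg y : ℤ) : ℝ) := by
        rw [Real.rpow_add (by norm_num), Real.rpow_one]; ring

lemma le_lg {y : ℝ} (hy : 0 < y) {a : ℤ} (h : (2 : ℝ) ^ (a : ℝ) ≤ y) : a ≤ lg y := by
  rw [lg, Int.le_floor]
  rw [Real.le_logb_iff_rpow_le (by norm_num) hy]
  exact h

/-- the sum over all levels of modulus -/
lemma levels {R K E D x : ℝ} (hR : 0 < R) (hK : 0 ≤ K) (hE : 0 ≤ E) (hD : 0 < D) (hx : 0 ≤ x)
    (s : Finset ℕ) (y e : ℕ → ℝ) (hy : ∀ j ∈ s, 0 < y j) (he : ∀ j ∈ s, 0 ≤ e j)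
    (hxy : ∀ j ∈ s, x ≤ y j + R * D)
    (hb : ∀ t ⊆ s, ∀ M : ℝ, 0 < M → (∀ j ∈ t, M ≤ y j ∧ y j ≤ 2 * M) →
      ∑ j ∈ t, e j ≤ K * min M D * E) :
    ∑ j ∈ s, e j * (y j) ^ (-(4 / 5) : ℝ) ≤
      K * ((R + 3) * ((1 - (2 : ℝ) ^ (-(1 / 5) : ℝ))⁻¹ + 2 * (1 - (2 : ℝ) ^ (-(4 / 5) : ℝ))⁻¹)) *
        (D * (x + D) ^ (-(4 / 5) : ℝ)) * E := by
  set θ₁ : ℝ := (2 : ℝ) ^ (-(1 / 5) : ℝ) with hθ₁
  set θ₂ : ℝ := (2 : ℝ) ^ (-(4 / 5) : ℝ) with hθ₂
  have h10 : 0 < θ₁ := Real.rpow_pos_of_pos (by norm_num) _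
  have h20 : 0 < θ₂ := Real.rpow_pos_of_pos (by norm_num) _
  have h11 : θ₁ < 1 := Real.rpow_lt_one_of_one_lt_of_neg (by norm_num) (by norm_num)
  have h21 : θ₂ < 1 := Real.rpow_lt_one_of_one_lt_of_neg (by norm_num) (by norm_num)
  set G : ℝ := D * (x + D) ^ (-(4 / 5) : ℝ) with hG
  have hG0 : 0 ≤ G := by positivity
  set a₀ : ℤ := lg D with ha₀
  set a₁ : ℤ := lg ((x + D) / (R + 3)) with ha₁
  have hq : 0 < (x + D) / (R + 3) := by positivity
  set A : Finset ℤ := s.image (fun j => lg (y j)) with hA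
  have hmaps : ∀ j ∈ s, (fun j => lg (y j)) j ∈ A := fun j hj => Finset.mem_image_of_mem _ hj
  rw [← Finset.sum_fiberwise_of_maps_to hmaps]
  -- one level
  have hlev : ∀ a ∈ A, ∑ j ∈ s.filter (fun j => lg (y j) = a), e j * (y j) ^ (-(4 / 5) : ℝ) ≤
      K * ((2 : ℝ) ^ (a : ℝ)) ^ (-(4 / 5) : ℝ) * min ((2 : ℝ) ^ (a : ℝ)) D * E := by
    intro a _
    have hM : 0 < (2 : ℝ) ^ (a : ℝ) := Real.rpow_pos_of_pos (by norm_num) _
    have h1 : ∑ j ∈ s.filter (fun j => lg (y j) = a), e j * (y j) ^ (-(4 / 5) : ℝ) ≤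
        ∑ j ∈ s.filter (fun j => lg (y j) = a), e j * ((2 : ℝ) ^ (a : ℝ)) ^ (-(4 / 5) : ℝ) := by
      apply Finset.sum_le_sum
      intro j hj
      rw [Finset.mem_filter] at hj
      have h2 : (2 : ℝ) ^ (a : ℝ) ≤ y j := by rw [← hj.2]; exact lg_le (hy j hj.1)
      exact mul_le_mul_of_nonneg_left (Real.rpow_le_rpow_of_nonpos hM h2 (by norm_num)) (he j hj.1)
    rw [← Finset.sum_mul] at h1
    have h3 := hb (s.filter (fun j => lg (y j) = a)) (Finset.filter_subset _ _) _ hM (by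
      intro j hj
      rw [Finset.mem_filter] at hj
      rw [← hj.2]
      exact ⟨lg_le (hy j hj.1), lt_lg (hy j hj.1)⟩)
    have h4 : 0 ≤ ((2 : ℝ) ^ (a : ℝ)) ^ (-(4 / 5) : ℝ) := Real.rpow_nonneg hM.le _
    have h5 := mul_le_mul_of_nonneg_right h3 h4
    linarith
  -- the numerical estimate for one level
  have hnum : ∀ a ∈ A, ((2 : ℝ) ^ (a : ℝ)) ^ (-(4 / 5) : ℝ) * min ((2 : ℝ) ^ (a : ℝ)) D ≤
      (R + 3) * G * ((if a ≤ a₀ then θ₁ ^ (a₀ - a).toNat else 0) +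
        2 * (if a₁ ≤ a then θ₂ ^ (a - a₁).toNat else 0)) := by
    intro a ha
    have hM : 0 < (2 : ℝ) ^ (a : ℝ) := Real.rpow_pos_of_pos (by norm_num) _
    obtain ⟨j, hj, hja⟩ := Finset.mem_image.1 ha
    have hxa : x ≤ 2 * (2 : ℝ) ^ (a : ℝ) + R * D := by
      have h1 := hxy j hj
      have h2 := lt_lg (hy j hj)
      rw [hja] at h2
      linarith
    rcases le_or_gt ((2 : ℝ) ^ (a : ℝ)) D with hc | hc
    · have haa : a ≤ a₀ := le_lg hD hc
      rw [if_pos haa, min_eq_left hc]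
      have h1 : D ^ (-(4 / 5) : ℝ) ≤ (R + 3) * (x + D) ^ (-(4 / 5) : ℝ) :=
        neg_rpow_le (by positivity) (by linarith) (by nlinarith)
      have h2 : D ^ (1 / 5 : ℝ) ≤ (R + 3) * G := by
        have h3 : D ^ (1 / 5 : ℝ) = D * D ^ (-(4 / 5) : ℝ) := by
          nth_rewrite 2 [← Real.rpow_one D]
          rw [← Real.rpow_add hD]; norm_num
        rw [h3, hG]
        have := mul_le_mul_of_nonneg_left h1 hD.le
        linarith
      have h4 : ((2 : ℝ) ^ (a : ℝ)) ^ (-(4 / 5) : ℝ) * (2 : ℝ) ^ (a : ℝ) ≤ D ^ (1 / 5 : ℝ) * θ₁ ^ (a₀ - a).toNat := by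
        have h5 : (2 : ℝ) ^ ((a₀ : ℝ) * (1 / 5)) ≤ D ^ (1 / 5 : ℝ) := by
          rw [Real.rpow_mul (by norm_num)]
          exact Real.rpow_le_rpow (Real.rpow_nonneg (by norm_num) _) (lg_le hD) (by norm_num)
        have h6 : θ₁ ^ (a₀ - a).toNat = (2 : ℝ) ^ (-(1 / 5) * ((a₀ : ℝ) - a)) := by
          rw [hθ₁, ← Real.rpow_natCast, ← Real.rpow_mul (by norm_num)]
          congr 2
          have h7 : (((a₀ - a).toNat : ℤ) : ℝ) = ((a₀ - a : ℤ) : ℝ) := by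
            rw [Int.toNat_of_nonneg (by omega)]
          push_cast at h7
          exact h7
        have h7 : ((2 : ℝ) ^ (a : ℝ)) ^ (-(4 / 5) : ℝ) * (2 : ℝ) ^ (a : ℝ) =
            (2 : ℝ) ^ ((a₀ : ℝ) * (1 / 5)) * (2 : ℝ) ^ (-(1 / 5) * ((a₀ : ℝ) - a)) := by
          rw [← Real.rpow_mul (by norm_num), ← Real.rpow_add (by norm_num), ← Real.rpow_add (by norm_num)]
          congr 1
          ring
        rw [h7, h6]
        exact mul_le_mul_of_nonneg_right h5 (Real.rpow_nonneg (by norm_num) _)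
      have h8 : 0 ≤ θ₁ ^ (a₀ - a).toNat := pow_nonneg h10.le _
      have h9 : (0 : ℝ) ≤ 2 * (if a₁ ≤ a then θ₂ ^ (a - a₁).toNat else 0) := by
        split_ifs
        · positivity
        · norm_num
      have h12 := mul_le_mul_of_nonneg_right h2 h8
      have h13 : 0 ≤ (R + 3) * G := by positivity
      have h14 := mul_nonneg h13 h9
      linarith
    · rw [min_eq_right hc.le]
      have h1 : x + D ≤ (R + 3) * (2 : ℝ) ^ (a : ℝ) := by nlinarith
      have h2 : (x + D) / (R + 3) ≤ (2 : ℝ) ^ (a : ℝ) := by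
        rw [div_le_iff₀ (by positivity)]; linarith
      have h3 : a₁ ≤ a := by
        have h4 : (2 : ℝ) ^ (a₁ : ℝ) ≤ (2 : ℝ) ^ (a : ℝ) := (lg_le hq).trans h2
        have h5 := (Real.rpow_le_rpow_left_iff (by norm_num : (1 : ℝ) < 2)).1 h4
        exact_mod_cast h5
      rw [if_pos h3]
      have h6 : θ₂ ^ (a - a₁).toNat = (2 : ℝ) ^ (-(4 / 5) * ((a : ℝ) - a₁)) := by
        rw [hθ₂, ← Real.rpow_natCast, ← Real.rpow_mul (by norm_num)]
        congr 2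
        have h7 : (((a - a₁).toNat : ℤ) : ℝ) = ((a - a₁ : ℤ) : ℝ) := by
          rw [Int.toNat_of_nonneg (by omega)]
        push_cast at h7
        exact h7
      have h7 : ((2 : ℝ) ^ (a₁ : ℝ)) ^ (-(4 / 5) : ℝ) ≤ (2 * (R + 3)) * (x + D) ^ (-(4 / 5) : ℝ) := by
        apply neg_rpow_le (by positivity) (by linarith)
        have h8 := lt_lg hq
        rw [div_le_iff₀ (by positivity)] at h8
        linarith
      have h9 : ((2 : ℝ) ^ (a : ℝ)) ^ (-(4 / 5) : ℝ) = ((2 : ℝ) ^ (a₁ : ℝ)) ^ (-(4 / 5) : ℝ) * θ₂ ^ (a - a₁).toNat := by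
        rw [h6, ← Real.rpow_mul (by norm_num), ← Real.rpow_mul (by norm_num), ← Real.rpow_add (by norm_num)]
        congr 1
        ring
      have h12 : 0 ≤ θ₂ ^ (a - a₁).toNat := pow_nonneg h20.le _
      have h13 : ((2 : ℝ) ^ (a : ℝ)) ^ (-(4 / 5) : ℝ) * D ≤ (R + 3) * G * (2 * θ₂ ^ (a - a₁).toNat) := by
        rw [h9, hG]
        have h14 := mul_le_mul_of_nonneg_right h7 (mul_nonneg h12 hD.le)
        nlinarith [h14]
      have h15 : (0 : ℝ) ≤ (if a ≤ a₀ then θ₁ ^ (a₀ - a).toNat else 0) := by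
        split_ifs
        · positivity
        · norm_num
      have h16 : 0 ≤ (R + 3) * G := by positivity
      have h17 := mul_nonneg h16 h15
      nlinarith
  have hs1 : ∑ a ∈ A, (if a ≤ a₀ then θ₁ ^ (a₀ - a).toNat else 0) ≤ (1 - θ₁)⁻¹ := by
    rw [← Finset.sum_filter]
    apply geo_sum θ₁ h10 h11 _ (fun a => (a₀ - a).toNat)
    intro a ha b hb' hab
    simp only [Finset.coe_filter, Set.mem_ofPred_eq] at ha hb'
    have := ha.2
    have := hb'.2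
    simp only at hab
    omega
  have hs2 : ∑ a ∈ A, (if a₁ ≤ a then θ₂ ^ (a - a₁).toNat else 0) ≤ (1 - θ₂)⁻¹ := by
    rw [← Finset.sum_filter]
    apply geo_sum θ₂ h20 h21 _ (fun a => (a - a₁).toNat)
    intro a ha b hb' hab
    simp only [Finset.coe_filter, Set.mem_ofPred_eq] at ha hb'
    have := ha.2
    have := hb'.2
    simp only at hab
    omega
  calc ∑ a ∈ A, ∑ j ∈ s.filter (fun j => lg (y j) = a), e j * (y j) ^ (-(4 / 5) : ℝ)
      ≤ ∑ a ∈ A, K * E * ((R + 3) * G * ((if a ≤ a₀ then θ₁ ^ (a₀ - a).toNat else 0) +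
        2 * (if a₁ ≤ a then θ₂ ^ (a - a₁).toNat else 0))) := by
        apply Finset.sum_le_sum
        intro a ha
        have h1 := hlev a ha
        have h2 := mul_le_mul_of_nonneg_left (hnum a ha) (mul_nonneg hK hE)
        linarith
    _ = K * E * ((R + 3) * G * (∑ a ∈ A, (if a ≤ a₀ then θ₁ ^ (a₀ - a).toNat else 0) +
        2 * ∑ a ∈ A, (if a₁ ≤ a then θ₂ ^ (a - a₁).toNat else 0))) := by
        rw [← Finset.mul_sum, ← Finset.mul_sum, Finset.sum_add_distrib, ← Finset.mul_sum]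
    _ ≤ K * E * ((R + 3) * G * ((1 - θ₁)⁻¹ + 2 * (1 - θ₂)⁻¹)) := by
        gcongr
    _ = K * ((R + 3) * ((1 - θ₁)⁻¹ + 2 * (1 - θ₂)⁻¹)) * G * E := by ring


/-- the claim for the vertices of the levels `k ≥ k₀` -/
def Q (k₀ : ℕ) : Prop := ∀ R : ℝ, 0 < R → ∃ K η : ℝ, 0 ≤ K ∧ 0 < η ∧ η ≤ 1 / 100 ∧
  ∀ f : ℂ → ℂ, InS f → ∀ k m i : ℕ, k₀ ≤ k → k ≤ m → i < 2 ^ k →
  ∀ (s : Finset ℕ),
  (∀ j ∈ s, j < 2 ^ m ∧ j / 2 ^ (m - k) = i ∧ ‖f (pt m j) - f (pt k i)‖ ≤ R * dd f (pt k i)) →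
    ∑ j ∈ s, dd f (pt m j) * ‖f (pt m j)‖ ^ (-(4 / 5) : ℝ) ≤
      K * (dd f (pt k i) * (‖f (pt k i)‖ + dd f (pt k i)) ^ (-(4 / 5) : ℝ)) * 2 ^ ((2 / 5 - η) * ((m : ℝ) - k))

lemma Q_two (h1 : S_TREE) (h2 : S_CLA) : Q 2 := by
  intro R hR
  obtain ⟨K, η, hK, hη, hη', h⟩ := h2 R hR
  refine ⟨K * ((R + 3) * ((1 - (2 : ℝ) ^ (-(1 / 5) : ℝ))⁻¹ + 2 * (1 - (2 : ℝ) ^ (-(4 / 5) : ℝ))⁻¹)), η, ?_, hη, hη', ?_⟩
  · have h11 : (2 : ℝ) ^ (-(1 / 5) : ℝ) < 1 := Real.rpow_lt_one_of_one_lt_of_neg (by norm_num) (by norm_num)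
    have h21 : (2 : ℝ) ^ (-(4 / 5) : ℝ) < 1 := Real.rpow_lt_one_of_one_lt_of_neg (by norm_num) (by norm_num)
    have h3 : 0 < (1 - (2 : ℝ) ^ (-(1 / 5) : ℝ))⁻¹ := by
      apply inv_pos.2; linarith
    have h4 : 0 < (1 - (2 : ℝ) ^ (-(4 / 5) : ℝ))⁻¹ := by
      apply inv_pos.2; linarith
    positivity
  intro f hf k m i hk hkm hi s hs
  have T := h1 f hf
  have hD : 0 < dd f (pt k i) := T.pos k i
  apply levels hR hK (Real.rpow_nonneg (by norm_num) _) hD (norm_nonneg _) s (fun j => ‖f (pt m j)‖)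
    (fun j => dd f (pt m j))
  · intro j hj
    have h3 : dd f (pt m j) ≤ 2000000 * ‖f (pt m j)‖ := T.low m j (by omega)
    have h4 : 0 < dd f (pt m j) := T.pos m j
    nlinarith
  · intro j hj
    have h4 : 0 < dd f (pt m j) := T.pos m j
    exact h4.le
  · intro j hj
    obtain ⟨_, _, h5⟩ := hs j hj
    have h6 : ‖f (pt k i)‖ ≤ ‖f (pt m j)‖ + ‖f (pt m j) - f (pt k i)‖ := by
      have h7 := norm_sub_le (f (pt m j)) (f (pt m j) - f (pt k i))
      rwa [sub_sub_cancel] at h7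
    linarith
  · intro t ht M hM htM
    apply h f hf k m i hk hkm hi t M hM
    intro j hj
    obtain ⟨h3, h4, h5⟩ := hs j (ht hj)
    exact ⟨h3, h4, h5, (htM j hj).1, (htM j hj).2⟩

lemma Q_step (h1 : S_TREE) (k₀ : ℕ) (hQ : Q (k₀ + 1)) : Q k₀ := by
  intro R hR
  obtain ⟨C, hC⟩ : ∃ C : ℝ, C = 2000000 := ⟨_, rfl⟩
  have hC1 : 1 ≤ C := by rw [hC]; norm_num
  have hC0 : 0 < C := by linarith
  have hR' : 0 < (R + C) * C + R := by positivity
  obtain ⟨K, η, hK, hη, hη', h⟩ := hQ ((R + C) * C + R) hR'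
  refine ⟨2 * K * (C * (C * (C + 1))) + (C + 1) + K, η, by positivity, hη, hη', ?_⟩
  intro f hf k m i hk hkm hi s hs
  have T := h1 f hf
  rw [← hC] at T
  have hD : 0 < dd f (pt k i) := T.pos k i
  have hx := norm_nonneg (f (pt k i))
  set Φ : ℝ := dd f (pt k i) * (‖f (pt k i)‖ + dd f (pt k i)) ^ (-(4 / 5) : ℝ) with hΦ
  have hΦ0 : 0 ≤ Φ := by positivity
  have hn : (0 : ℝ) ≤ (m : ℝ) - k := by
    have : (k : ℝ) ≤ m := by exact_mod_cast hkm
    linarith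
  set E : ℝ := (2 : ℝ) ^ ((2 / 5 - η) * ((m : ℝ) - k)) with hE
  have hE1 : 1 ≤ E := Real.one_le_rpow (by norm_num) (by nlinarith)
  have hnn1 : 0 ≤ K * Φ * E := by positivity
  have hnn2 : 0 ≤ (C + 1) * Φ * E := by positivity
  have hnn3 : 0 ≤ 2 * K * (C * (C * (C + 1))) * Φ * E := by positivity
  by_cases hk1 : k₀ + 1 ≤ k
  · have h3 := h f hf k m i hk1 hkm hi s (by
      intro j hj
      obtain ⟨h4, h5, h6⟩ := hs j hj
      refine ⟨h4, h5, h6.trans ?_⟩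
      apply mul_le_mul_of_nonneg_right _ hD.le
      nlinarith)
    nlinarith
  by_cases hm : m = k
  · -- one term
    subst hm
    have h3 : s ⊆ {i} := by
      intro j hj
      obtain ⟨_, h5, _⟩ := hs j hj
      simp only [le_refl, tsub_eq_zero_of_le, pow_zero, Nat.div_one] at h5
      rw [h5]; exact Finset.mem_singleton_self _
    have h4 : ∑ j ∈ s, dd f (pt m j) * ‖f (pt m j)‖ ^ (-(4 / 5) : ℝ) ≤
        ∑ j ∈ ({i} : Finset ℕ), dd f (pt m j) * ‖f (pt m j)‖ ^ (-(4 / 5) : ℝ) := by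
      apply Finset.sum_le_sum_of_subset_of_nonneg h3
      intro j _ _
      have h5 : 0 < dd f (pt m j) := T.pos m j
      positivity
    rw [Finset.sum_singleton] at h4
    have h5 : dd f (pt m i) * ‖f (pt m i)‖ ^ (-(4 / 5) : ℝ) ≤ (C + 1) * Φ := by
      rcases Nat.eq_zero_or_pos m with h6 | h6
      · subst h6
        have hi0 : i = 0 := by simpa using hi
        subst hi0
        have h7 : f (pt 0 0) = 0 := T.root
        rw [h7, norm_zero, Real.zero_rpow (by norm_num)]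
        simp only [mul_zero]
        positivity
      · have h7 : dd f (pt m i) ≤ C * ‖f (pt m i)‖ := T.low m i h6
        have h8 : ‖f (pt m i)‖ ^ (-(4 / 5) : ℝ) ≤ (C + 1) * (‖f (pt m i)‖ + dd f (pt m i)) ^ (-(4 / 5) : ℝ) :=
          neg_rpow_le (by positivity) (by linarith) (by linarith)
        have h9 := mul_le_mul_of_nonneg_left h8 hD.le
        rw [hΦ]
        linarith
    nlinarith
  · have hkm' : k + 1 ≤ m := by omega
    -- the two children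
    have hch : ∀ i' : ℕ, i' / 2 = i → ∑ j ∈ s.filter (fun j => j / 2 ^ (m - (k + 1)) = i'),
        dd f (pt m j) * ‖f (pt m j)‖ ^ (-(4 / 5) : ℝ) ≤ K * (C * (C * (C + 1))) * Φ * E := by
      intro i' hi'
      have hch1 : ‖f (pt (k + 1) i') - f (pt k i)‖ ≤ C * dd f (pt k i) := by
        have := T.step k i'
        rw [hi'] at this
        exact this
      have hch2 : dd f (pt (k + 1) i') ≤ C * dd f (pt k i) := by
        have := T.child k i'
        rw [hi'] at this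
        exact this
      have hch3 : dd f (pt k i) ≤ C * dd f (pt (k + 1) i') := by
        have := T.parent k i'
        rw [hi'] at this
        exact this
      have hch4 : 0 < dd f (pt (k + 1) i') := T.pos (k + 1) i'
      have h3 := h f hf (k + 1) m i' (by omega) hkm' (by rw [pow_succ]; omega)
        (s.filter (fun j => j / 2 ^ (m - (k + 1)) = i')) (by
          intro j hj
          rw [Finset.mem_filter] at hj
          obtain ⟨h4, _, h6⟩ := hs j hj.1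
          refine ⟨h4, hj.2, ?_⟩
          have h7 : ‖f (pt m j) - f (pt (k + 1) i')‖ ≤ ‖f (pt m j) - f (pt k i)‖ + ‖f (pt (k + 1) i') - f (pt k i)‖ := by
            have h8 := norm_sub_le (f (pt m j) - f (pt k i)) (f (pt (k + 1) i') - f (pt k i))
            rwa [sub_sub_sub_cancel_right] at h8
          have h8 : (R + C) * dd f (pt k i) ≤ (R + C) * (C * dd f (pt (k + 1) i')) :=
            mul_le_mul_of_nonneg_left hch3 (by positivity)
          nlinarith)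
      have h4 : (‖f (pt (k + 1) i')‖ + dd f (pt (k + 1) i')) ^ (-(4 / 5) : ℝ) ≤
          (C * (C + 1)) * (‖f (pt k i)‖ + dd f (pt k i)) ^ (-(4 / 5) : ℝ) := by
        apply neg_rpow_le (by positivity) (by nlinarith)
        have h5 : ‖f (pt k i)‖ ≤ ‖f (pt (k + 1) i')‖ + ‖f (pt (k + 1) i') - f (pt k i)‖ := by
          have h7 := norm_sub_le (f (pt (k + 1) i')) (f (pt (k + 1) i') - f (pt k i))
          rwa [sub_sub_cancel] at h7
        have h6 := norm_nonneg (f (pt (k + 1) i'))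
        have h8 : (C + 1) * dd f (pt k i) ≤ (C + 1) * (C * dd f (pt (k + 1) i')) :=
          mul_le_mul_of_nonneg_left hch3 (by positivity)
        have h9 : ‖f (pt (k + 1) i')‖ ≤ C * (C + 1) * ‖f (pt (k + 1) i')‖ := by
          nlinarith [mul_nonneg (by nlinarith : (0 : ℝ) ≤ C * (C + 1) - 1) h6]
        nlinarith
      have h5 : dd f (pt (k + 1) i') * (‖f (pt (k + 1) i')‖ + dd f (pt (k + 1) i')) ^ (-(4 / 5) : ℝ) ≤
          (C * (C * (C + 1))) * Φ := by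
        have h6 : 0 ≤ (‖f (pt (k + 1) i')‖ + dd f (pt (k + 1) i')) ^ (-(4 / 5) : ℝ) := by positivity
        calc dd f (pt (k + 1) i') * (‖f (pt (k + 1) i')‖ + dd f (pt (k + 1) i')) ^ (-(4 / 5) : ℝ)
            ≤ (C * dd f (pt k i)) * ((C * (C + 1)) * (‖f (pt k i)‖ + dd f (pt k i)) ^ (-(4 / 5) : ℝ)) :=
              mul_le_mul hch2 h4 h6 (by positivity)
          _ = (C * (C * (C + 1))) * Φ := by rw [hΦ]; ring
      have h6 : (2 : ℝ) ^ ((2 / 5 - η) * ((m : ℝ) - ((k + 1 : ℕ) : ℝ))) ≤ E := by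
        rw [hE]
        apply Real.rpow_le_rpow_of_exponent_le (by norm_num)
        push_cast
        nlinarith
      calc _ ≤ _ := h3
        _ ≤ K * ((C * (C * (C + 1))) * Φ) * E := by
            apply mul_le_mul _ h6 (by positivity) (by positivity)
            exact mul_le_mul_of_nonneg_left h5 hK
        _ = K * (C * (C * (C + 1))) * Φ * E := by ring
    have hsub : s ⊆ s.filter (fun j => j / 2 ^ (m - (k + 1)) = 2 * i) ∪
        s.filter (fun j => j / 2 ^ (m - (k + 1)) = 2 * i + 1) := by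
      intro j hj
      obtain ⟨_, h5, _⟩ := hs j hj
      have h6 : m - k = (m - (k + 1)) + 1 := by omega
      rw [h6, pow_succ, ← Nat.div_div_eq_div_mul] at h5
      rw [Finset.mem_union, Finset.mem_filter, Finset.mem_filter]
      rcases (by omega : j / 2 ^ (m - (k + 1)) = 2 * i ∨ j / 2 ^ (m - (k + 1)) = 2 * i + 1) with h7 | h7
      · exact Or.inl ⟨hj, h7⟩
      · exact Or.inr ⟨hj, h7⟩
    have hpos : ∀ j, 0 ≤ dd f (pt m j) * ‖f (pt m j)‖ ^ (-(4 / 5) : ℝ) := by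
      intro j
      have h5 : 0 < dd f (pt m j) := T.pos m j
      positivity
    have h3 := Finset.sum_le_sum_of_subset_of_nonneg (f := fun j => dd f (pt m j) * ‖f (pt m j)‖ ^ (-(4 / 5) : ℝ))
      hsub (fun j _ _ => hpos j)
    have h4 : ∑ j ∈ (s.filter (fun j => j / 2 ^ (m - (k + 1)) = 2 * i) ∪
        s.filter (fun j => j / 2 ^ (m - (k + 1)) = 2 * i + 1)), dd f (pt m j) * ‖f (pt m j)‖ ^ (-(4 / 5) : ℝ) ≤
        ∑ j ∈ s.filter (fun j => j / 2 ^ (m - (k + 1)) = 2 * i), dd f (pt m j) * ‖f (pt m j)‖ ^ (-(4 / 5) : ℝ) +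
        ∑ j ∈ s.filter (fun j => j / 2 ^ (m - (k + 1)) = 2 * i + 1), dd f (pt m j) * ‖f (pt m j)‖ ^ (-(4 / 5) : ℝ) := by
      rw [← Finset.sum_union_inter]
      have h5 : 0 ≤ ∑ j ∈ (s.filter (fun j => j / 2 ^ (m - (k + 1)) = 2 * i) ∩
        s.filter (fun j => j / 2 ^ (m - (k + 1)) = 2 * i + 1)), dd f (pt m j) * ‖f (pt m j)‖ ^ (-(4 / 5) : ℝ) :=
        Finset.sum_nonneg (fun j _ => hpos j)
      linarith
    have h5 := hch (2 * i) (by omega)
    have h6 := hch (2 * i + 1) (by omega)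
    nlinarith

theorem t_CL2 (h1 : S_TREE) (h2 : S_CLA) : S_CL2 := by
  intro R hR
  obtain ⟨K, η, hK, hη, hη', h⟩ := Q_step h1 0 (Q_step h1 1 (Q_two h1 h2)) R hR
  exact ⟨K, η, hK, hη, hη', fun f hf k m i hkm hi s hs => h f hf k m i (Nat.zero_le _) hkm hi s hs⟩

end V5helper28.SZ
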